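import Mathlib
import Pool.Agent.W960.GA.Comp
import Pool.Agent.Helper566.FD.J7
import Pool.Agent.Y703.CT.Defs

/-!
# The conditions on `D` are computable
-/

set_option autoImplicit false

namespace Pool.Agent.Q323.CA

open Pool.Agent.Helper446 Pool.Agent.W960.GA

open Pool.Agent.Y703.CT (Cls NoSplit Base)

attribute [local fun_prop] cmod

section

variable {α : Type} [Primcodable α]

theorem cdvd {f g : α → ℕ} (hf : Computable f) (hg : Computable g) :
    ComputablePred fun x => f x ∣ g x := by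
  refine cp_of_iff (RE.cp_eq (f := fun x => g x % f x) (g := fun _ => 0) (by fun_prop)
    (by fun_prop)) fun x => ?_
  exact Nat.dvd_iff_mod_eq_zero

theorem cor {p q : α → Prop} (hp : ComputablePred p) (hq : ComputablePred q) :
    ComputablePred fun a => p a ∨ q a :=
  cp_of_iff (cp_not (cp_and (cp_not hp) (cp_not hq))) fun a => by tauto

/-- the primes -/
def Pr (p : ℕ) : Prop := 2 ≤ p ∧ ∀ k < p + 1, k ∣ p → k = 1 ∨ k = p

lemma pr_iff (p : ℕ) : Pr p ↔ p.Prime := by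
  rw [Nat.prime_def]
  unfold Pr
  refine and_congr_right fun h2 => ⟨fun h m hm => h m ?_ hm, fun h m _ hm => h m hm⟩
  exact Nat.lt_succ_of_le (Nat.le_of_dvd (by omega) hm)

theorem cpr {p : α → ℕ} (hp : Computable p) : ComputablePred fun a => Pr (p a) := by
  unfold Pr
  refine cp_and (RE.cp_le (by fun_prop) hp) ?_
  refine cp_all_lt (p := fun a k => k ∣ p a → k = 1 ∨ k = p a) ?_ (by fun_prop)
  exact cp_imp (cdvd (by fun_prop) (by fun_prop)) (cor (RE.cp_eq (by fun_prop) (by fun_prop))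
    (RE.cp_eq (by fun_prop) (by fun_prop)))

/-- coprime numbers -/
def Cop (a b : ℕ) : Prop := ∀ k < a + b + 1, (k ∣ a ∧ k ∣ b) → k = 1

lemma cop_iff {a b : ℕ} (h : a ≠ 0) : Cop a b ↔ Nat.Coprime a b := by
  constructor
  · intro h1
    refine h1 (Nat.gcd a b) ?_ ⟨Nat.gcd_dvd_left a b, Nat.gcd_dvd_right a b⟩
    have := Nat.gcd_le_left b (Nat.pos_of_ne_zero h)
    omega
  · rintro h1 k _ ⟨h2, h3⟩
    exact Nat.eq_one_of_dvd_coprimes h1 h2 h3

theorem ccop {a b : α → ℕ} (ha : Computable a) (hb : Computable b) :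
    ComputablePred fun x => Cop (a x) (b x) := by
  unfold Cop
  refine cp_all_lt (p := fun x k => (k ∣ a x ∧ k ∣ b x) → k = 1) ?_ (by fun_prop)
  exact cp_imp (cp_and (cdvd (by fun_prop) (by fun_prop)) (cdvd (by fun_prop) (by fun_prop)))
    (RE.cp_eq (by fun_prop) (by fun_prop))

/-- `a` is a cube modulo `p` -/
def CM (p a : ℕ) : Prop := ∃ x < p, a % p = (x * x * x) % p

lemma cm_iff {p a : ℕ} (hp : 0 < p) : CM p a ↔ ∃ x : ℤ, (p : ℤ) ∣ (a : ℤ) - x ^ 3 := by
  constructor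
  · rintro ⟨x, _, hx⟩
    refine ⟨x, ?_⟩
    have h1 : (x * x * x) ≡ a [MOD p] := hx.symm
    have h2 := Nat.modEq_iff_dvd.1 h1
    push_cast at h2
    have e : (a : ℤ) - (x : ℤ) ^ 3 = a - x * x * x := by ring
    rw [e]
    exact h2
  · rintro ⟨x, hx⟩
    have hp' : (0 : ℤ) < p := by exact_mod_cast hp
    have h3 : (((x % (p : ℤ)).toNat : ℕ) : ℤ) = x % (p : ℤ) :=
      Int.toNat_of_nonneg (Int.emod_nonneg _ hp'.ne')
    refine ⟨(x % (p : ℤ)).toNat, ?_, ?_⟩
    · have := Int.emod_lt_of_pos x hp'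
      omega
    · have h1 : ((x % (p : ℤ)).toNat * (x % (p : ℤ)).toNat * (x % (p : ℤ)).toNat) ≡ a [MOD p] := by
        rw [Nat.modEq_iff_dvd]
        push_cast
        rw [h3]
        have h4 : (p : ℤ) ∣ x - x % (p : ℤ) := Int.dvd_self_sub_emod
        have e : (a : ℤ) - x % (p : ℤ) * (x % (p : ℤ)) * (x % (p : ℤ)) = (a - x ^ 3) +
          (x - x % (p : ℤ)) * (x ^ 2 + x * (x % (p : ℤ)) + (x % (p : ℤ)) ^ 2) := by ring
        rw [e]
        exact dvd_add hx (h4.mul_right _)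
      exact h1.symm

theorem ccm {p a : α → ℕ} (hp : Computable p) (ha : Computable a) :
    ComputablePred fun t => CM (p t) (a t) := by
  unfold CM
  refine cp_ex_lt (p := fun t x => a t % p t = (x * x * x) % p t) ?_ hp
  exact RE.cp_eq (by fun_prop) (by fun_prop)

/-- `b` is a cube modulo the primes dividing `a` -/
def CC (a b : ℕ) : Prop := ∀ p < a + 1, (Pr p ∧ p ∣ a) → CM p b

theorem ccc {a b : α → ℕ} (ha : Computable a) (hb : Computable b) :
    ComputablePred fun t => CC (a t) (b t) := by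
  unfold CC
  refine cp_all_lt (p := fun t p => (Pr p ∧ p ∣ a t) → CM p (b t)) ?_ (by fun_prop)
  exact cp_imp (cp_and (cpr (by fun_prop)) (cdvd (by fun_prop) (by fun_prop)))
    (ccm (by fun_prop) (by fun_prop))

lemma cc_iff {a b : ℕ} (ha : a ≠ 0) : CC a b ↔
    ∀ p : ℕ, p.Prime → p ∣ a → ∃ x : ℤ, (p : ℤ) ∣ (b : ℤ) - x ^ 3 := by
  constructor
  · intro h p hp hpa
    exact (cm_iff hp.pos).1 (h p (Nat.lt_succ_of_le (Nat.le_of_dvd (Nat.pos_of_ne_zero ha) hpa))
      ⟨(pr_iff p).2 hp, hpa⟩)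
  · rintro h p _ ⟨hp, hpa⟩
    have hp' := (pr_iff p).1 hp
    exact (cm_iff hp'.pos).2 (h p hp' hpa)

/-- one product -/
def N3 (D a b c : ℕ) : Prop := (a * b * c = D ∧ (Cop a b ∧ (Cop b c ∧ Cop a c)) ∧
    (CC a (b * (c * c)) ∧ (CC b (c * (a * a)) ∧ CC c (a * (b * b))))) →
  ((a = 1 ∧ b = 1) ∨ ((b = 1 ∧ c = 1) ∨ (a = 1 ∧ c = 1)))

theorem cn3 {D a b c : α → ℕ} (hD : Computable D) (ha : Computable a) (hb : Computable b)
    (hc : Computable c) : ComputablePred fun t => N3 (D t) (a t) (b t) (c t) := by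
  unfold N3
  refine cp_imp (cp_and (RE.cp_eq (by fun_prop) hD) (cp_and (cp_and (ccop ha hb)
    (cp_and (ccop hb hc) (ccop ha hc))) (cp_and (ccc ha (by fun_prop)) (cp_and
    (ccc hb (by fun_prop)) (ccc hc (by fun_prop)))))) ?_
  exact cor (cp_and (RE.cp_eq ha (by fun_prop)) (RE.cp_eq hb (by fun_prop)))
    (cor (cp_and (RE.cp_eq hb (by fun_prop)) (RE.cp_eq hc (by fun_prop)))
      (cp_and (RE.cp_eq ha (by fun_prop)) (RE.cp_eq hc (by fun_prop))))

theorem cn2 {D a b : α → ℕ} (hD : Computable D) (ha : Computable a) (hb : Computable b) :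
    ComputablePred fun t => ∀ c < D t + 1, N3 (D t) (a t) (b t) c := by
  refine cp_all_lt (p := fun t c => N3 (D t) (a t) (b t) c) ?_ (by fun_prop)
  apply cn3 <;> fun_prop

theorem cn1 {D a : α → ℕ} (hD : Computable D) (ha : Computable a) :
    ComputablePred fun t => ∀ b < D t + 1, ∀ c < D t + 1, N3 (D t) (a t) b c := by
  refine cp_all_lt (p := fun t b => ∀ c < D t + 1, N3 (D t) (a t) b c) ?_ (by fun_prop)
  apply cn2 <;> fun_prop

/-- no splitting -/
def NS (D : ℕ) : Prop := ∀ a < D + 1, ∀ b < D + 1, ∀ c < D + 1, N3 D a b c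

theorem cns {D : α → ℕ} (hD : Computable D) : ComputablePred fun t => NS (D t) := by
  unfold NS
  refine cp_all_lt (p := fun t a => ∀ b < D t + 1, ∀ c < D t + 1, N3 (D t) a b c) ?_ (by fun_prop)
  apply cn1 <;> fun_prop

lemma ns_iff {D : ℕ} (hD : D ≠ 0) : NS D ↔ NoSplit D := by
  constructor
  · intro h d hd hco hcu
    have e : ∏ c, d c = d 0 * d 1 * d 2 := by
      rw [show (Finset.univ : Finset (ZMod 3)) = {0, 1, 2} by decide]
      rw [Finset.prod_insert (by decide), Finset.prod_insert (by decide), Finset.prod_singleton,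
        mul_assoc]
    have h0 : ∀ c, d c ≠ 0 := by
      intro c hc
      apply hD
      rw [← hd]
      exact Finset.prod_eq_zero (Finset.mem_univ c) hc
    have hlt : ∀ c, d c < D + 1 := by
      intro c
      refine Nat.lt_succ_of_le (Nat.le_of_dvd (Nat.pos_of_ne_zero hD) ?_)
      rw [← hd]
      exact Finset.dvd_prod_of_mem d (Finset.mem_univ c)
    have hcu' : ∀ c, CC (d c) (d (c + 1) * (d (c + 2) * d (c + 2))) := by
      intro c
      rw [cc_iff (h0 c)]
      intro p hp hpc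
      obtain ⟨x, hx⟩ := hcu c p hp hpc
      refine ⟨x, ?_⟩
      push_cast
      have e2 : (d (c + 1) : ℤ) * (d (c + 2) * d (c + 2)) - x ^ 3 =
        (d (c + 1) : ℤ) * (d (c + 2) : ℤ) ^ 2 - x ^ 3 := by ring
      rw [e2]
      exact hx
    have h1 := h (d 0) (hlt 0) (d 1) (hlt 1) (d 2) (hlt 2) ⟨by rw [← e, hd],
      ⟨(cop_iff (h0 0)).2 (hco 0 1 (by decide)), (cop_iff (h0 1)).2 (hco 1 2 (by decide)),
        (cop_iff (h0 0)).2 (hco 0 2 (by decide))⟩, hcu' 0, hcu' 1, hcu' 2⟩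
    have hc3 : ∀ c : ZMod 3, c = 0 ∨ c = 1 ∨ c = 2 := by decide
    rcases h1 with ⟨k1, k2⟩ | ⟨k1, k2⟩ | ⟨k1, k2⟩
    · refine ⟨2, fun c hc => ?_⟩
      rcases hc3 c with rfl | rfl | rfl
      · exact k1
      · exact k2
      · exact absurd rfl hc
    · refine ⟨0, fun c hc => ?_⟩
      rcases hc3 c with rfl | rfl | rfl
      · exact absurd rfl hc
      · exact k1
      · exact k2
    · refine ⟨1, fun c hc => ?_⟩
      rcases hc3 c with rfl | rfl | rfl
      · exact k1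
      · exact absurd rfl hc
      · exact k2
  · rintro h a _ b _ c _ ⟨habc, ⟨h1, h2, h3⟩, h4, h5, h6⟩
    have ha : a ≠ 0 := by rintro rfl; apply hD; rw [← habc]; ring
    have hb : b ≠ 0 := by rintro rfl; apply hD; rw [← habc]; ring
    have hc : c ≠ 0 := by rintro rfl; apply hD; rw [← habc]; ring
    let d : ZMod 3 → ℕ := fun i => if i = 0 then a else if i = 1 then b else c
    have d0 : d 0 = a := rfl
    have d1 : d 1 = b := rfl
    have d2 : d 2 = c := rfl
    have e : ∏ c, d c = d 0 * d 1 * d 2 := by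
      rw [show (Finset.univ : Finset (ZMod 3)) = {0, 1, 2} by decide]
      rw [Finset.prod_insert (by decide), Finset.prod_insert (by decide), Finset.prod_singleton,
        mul_assoc]
    have hc3 : ∀ c : ZMod 3, c = 0 ∨ c = 1 ∨ c = 2 := by decide
    have g1 := (cop_iff ha).1 h1
    have g2 := (cop_iff hb).1 h2
    have g3 := (cop_iff ha).1 h3
    obtain ⟨i, hi⟩ := h d (by rw [e, d0, d1, d2, habc]) (by
      intro i j hij
      rcases hc3 i with rfl | rfl | rfl <;> rcases hc3 j with rfl | rfl | rfl <;>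
        first
        | exact absurd rfl hij
        | exact g1
        | exact g2
        | exact g3
        | exact g1.symm
        | exact g2.symm
        | exact g3.symm) (by
      intro i p hp hpi
      have key : ∀ u v w : ℕ, u ≠ 0 → p ∣ u → CC u (v * (w * w)) →
          ∃ x : ℤ, (p : ℤ) ∣ (v : ℤ) * (w : ℤ) ^ 2 - x ^ 3 := by
        intro u v w hu hpu hcc
        obtain ⟨x, hx⟩ := (cc_iff hu).1 hcc p hp hpu
        refine ⟨x, ?_⟩
        push_cast at hx
        have e2 : (v : ℤ) * (w : ℤ) ^ 2 - x ^ 3 = v * (w * w) - x ^ 3 := by ring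
        rw [e2]
        exact hx
      rcases hc3 i with rfl | rfl | rfl
      · exact key a b c ha hpi h4
      · exact key b c a hb hpi h5
      · exact key c a b hc hpi h6)
    rcases hc3 i with rfl | rfl | rfl
    · exact Or.inr (Or.inl ⟨hi 1 (by decide), hi 2 (by decide)⟩)
    · exact Or.inr (Or.inr ⟨hi 0 (by decide), hi 2 (by decide)⟩)
    · exact Or.inl ⟨hi 0 (by decide), hi 1 (by decide)⟩

/-- the class -/
def CL (D : ℕ) : Prop := (¬ D = 0 ∧ (¬ 3 ∣ D ∧ ∀ p < D + 1, Pr p → ¬ p * p * p ∣ D)) ∧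
  (¬ D % 9 = 1 ∧ (¬ D % 9 = 8 ∧ ∃ q < D + 1, (Pr q ∧ (q % 3 = 2 ∧ q ∣ D)) ∧
    ∀ p < D + 1, (Pr p ∧ (p ∣ D ∧ ¬ p = q)) → p % 3 = 1))

theorem ccl1 {D q : α → ℕ} (hD : Computable D) (hq : Computable q) : ComputablePred fun t =>
    ∀ p < D t + 1, (Pr p ∧ (p ∣ D t ∧ ¬ p = q t)) → p % 3 = 1 := by
  refine cp_all_lt (p := fun t p => (Pr p ∧ (p ∣ D t ∧ ¬ p = q t)) → p % 3 = 1) ?_ (by fun_prop)
  exact cp_imp (cp_and (cpr (by fun_prop)) (cp_and (cdvd (by fun_prop) (by fun_prop))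
    (cp_not (RE.cp_eq (by fun_prop) (by fun_prop))))) (RE.cp_eq (by fun_prop) (by fun_prop))

theorem ccl {D : α → ℕ} (hD : Computable D) : ComputablePred fun t => CL (D t) := by
  unfold CL
  refine cp_and (cp_and (cp_not (RE.cp_eq hD (by fun_prop))) (cp_and
    (cp_not (cdvd (by fun_prop) hD)) ?_)) (cp_and (cp_not (RE.cp_eq (by fun_prop) (by fun_prop)))
    (cp_and (cp_not (RE.cp_eq (by fun_prop) (by fun_prop))) ?_))
  · refine cp_all_lt (p := fun t p => Pr p → ¬ p * p * p ∣ D t) ?_ (by fun_prop)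
    exact cp_imp (cpr (by fun_prop)) (cp_not (cdvd (by fun_prop) (by fun_prop)))
  · refine cp_ex_lt (p := fun t q => (Pr q ∧ (q % 3 = 2 ∧ q ∣ D t)) ∧
      ∀ p < D t + 1, (Pr p ∧ (p ∣ D t ∧ ¬ p = q)) → p % 3 = 1) ?_ (by fun_prop)
    exact cp_and (cp_and (cpr (by fun_prop)) (cp_and (RE.cp_eq (by fun_prop) (by fun_prop))
      (cdvd (by fun_prop) (by fun_prop)))) (ccl1 (by fun_prop) (by fun_prop))

lemma cl_iff (D : ℕ) : CL D ↔ Cls D := by
  unfold CL Cls Base
  by_cases hD : D = 0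
  · simp [hD]
  have hle : ∀ p : ℕ, p ∣ D → p < D + 1 := fun p hp =>
    Nat.lt_succ_of_le (Nat.le_of_dvd (Nat.pos_of_ne_zero hD) hp)
  constructor
  · rintro ⟨⟨h1, h2, h3⟩, h4, h5, q, _, ⟨h6, h7, h8⟩, h9⟩
    refine ⟨⟨h1, h2, fun p hp hpD => ?_⟩, h4, h5, q, (pr_iff q).1 h6, h7, h8,
      fun p hp hpD hne => h9 p (hle p hpD) ⟨(pr_iff p).2 hp, hpD, hne⟩⟩
    have h10 : p ∣ D := (dvd_pow_self p (by norm_num)).trans hpD
    refine h3 p (hle p h10) ((pr_iff p).2 hp) ?_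
    have e : p * p * p = p ^ 3 := by ring
    rw [e]
    exact hpD
  · rintro ⟨⟨h1, h2, h3⟩, h4, h5, q, h6, h7, h8, h9⟩
    refine ⟨⟨h1, h2, fun p _ hp hpD => ?_⟩, h4, h5, q, hle q h8, ⟨(pr_iff q).2 h6, h7, h8⟩,
      fun p _ hp => h9 p ((pr_iff p).1 hp.1) hp.2.1 hp.2.2⟩
    refine h3 p ((pr_iff p).1 hp) ?_
    have e : p ^ 3 = p * p * p := by ring
    rw [e]
    exact hpD

/-- the good `D` -/
def Gd (D : ℕ) : Prop := CL D ∧ (NS D ∧ ¬ D = 2)

theorem cgd {D : α → ℕ} (hD : Computable D) : ComputablePred fun t => Gd (D t) :=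
  cp_and (ccl hD) (cp_and (cns hD) (cp_not (RE.cp_eq hD (by fun_prop))))

lemma gd_iff (D : ℕ) : Gd D ↔ Cls D ∧ NoSplit D ∧ D ≠ 2 := by
  unfold Gd
  rw [cl_iff]
  refine and_congr_right fun h => ?_
  rw [ns_iff h.1.1]

/-- the decidable set of integers -/
def SA (A : ℤ) : Prop := ∃ n < A.toNat + (-A).toNat + 1, ∃ D < A.toNat + (-A).toNat + 1,
  n * n * n * D = A.toNat + (-A).toNat ∧ Gd D

theorem csa : ComputablePred SA := by
  unfold SA
  have h1 : Computable fun A : ℤ => A.toNat + (-A).toNat := by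
    have k1 : Computable fun A : ℤ => A.toNat :=
      Pool.Agent.Helper566.FD.J7.prim_toNat.to_comp
    have k2 : Computable fun A : ℤ => (-A).toNat :=
      k1.comp Pool.Agent.Helper566.FD.J7.prim_int_neg.to_comp
    fun_prop
  have h2 : ComputablePred fun x : ℤ × ℕ => ∃ D < x.1.toNat + (-x.1).toNat + 1,
      x.2 * x.2 * x.2 * D = x.1.toNat + (-x.1).toNat ∧ Gd D := by
    have h3 : Computable fun x : ℤ × ℕ => x.1.toNat + (-x.1).toNat := h1.comp Computable.fst
    refine cp_ex_lt (p := fun (x : ℤ × ℕ) D => x.2 * x.2 * x.2 * D = x.1.toNat + (-x.1).toNat ∧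
      Gd D) ?_ (by fun_prop)
    have h4 : Computable fun x : (ℤ × ℕ) × ℕ => x.1.1.toNat + (-x.1.1).toNat :=
      h3.comp Computable.fst
    exact cp_and (RE.cp_eq (by fun_prop) h4) (cgd (by fun_prop))
  exact cp_ex_lt (p := fun (A : ℤ) n => ∃ D < A.toNat + (-A).toNat + 1,
    n * n * n * D = A.toNat + (-A).toNat ∧ Gd D) h2 (by fun_prop)

end

end Pool.Agent.Q323.CA
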