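import Mathlib

/-!
# The tangent construction on `X³ + Y³ = D`

If `D > 1` is an integer without cubes of primes as divisors, and there are finitely many rational
solutions, then all of them have `X = Y` (Hardy and Wright, Theorem 232).
-/

set_option autoImplicit false

namespace Pool.Agent.Q323.CA

/-- no cube of a prime divides `D` -/
def CF (D : ℕ) : Prop := ∀ p : ℕ, p.Prime → ¬ p ^ 3 ∣ D

lemma pm_one {x : ℤ} (h : x ^ 2 ≤ 1) (h0 : x ≠ 0) : x = 1 ∨ x = -1 := by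
  have h1 : -1 ≤ x := by nlinarith
  have h2 : x ≤ 1 := by nlinarith
  omega

lemma cube_sub {x y : ℤ} (hx : x ≠ 0) (hy : y ≠ 0) (h1 : x ≠ y) (h2 : x ≠ -y) :
    3 < |x ^ 3 - y ^ 3| := by
  have e : x ^ 3 - y ^ 3 = (x - y) * (x ^ 2 + x * y + y ^ 2) := by ring
  have hq : 2 ≤ x ^ 2 + x * y + y ^ 2 := by
    by_contra hcon
    push Not at hcon
    have h5 : x ^ 2 + x * y + y ^ 2 ≤ 1 := by omega
    have h6 : (2 * x + y) ^ 2 + 3 * y ^ 2 ≤ 4 := by nlinarith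
    have h7 : y ^ 2 ≤ 1 := by nlinarith [sq_nonneg (2 * x + y)]
    have h8 : (2 * y + x) ^ 2 + 3 * x ^ 2 ≤ 4 := by nlinarith
    have h9 : x ^ 2 ≤ 1 := by nlinarith [sq_nonneg (2 * y + x)]
    rcases pm_one h9 hx with rfl | rfl <;> rcases pm_one h7 hy with rfl | rfl <;> simp_all
  rw [e, abs_mul, abs_of_pos (by omega : 0 < x ^ 2 + x * y + y ^ 2)]
  have hd : 1 ≤ |x - y| := Int.one_le_abs (sub_ne_zero.2 h1)
  rcases eq_or_lt_of_le hd with h3 | h3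
  · rw [← h3, one_mul]
    rcases (abs_eq (by norm_num)).1 h3.symm with h4 | h4
    · have h5 : x = y + 1 := by linarith
      subst h5
      have h6 : 1 ≤ y ∨ y ≤ -2 := by omega
      rcases h6 with h6 | h6 <;> nlinarith
    · have h5 : y = x + 1 := by linarith
      subst h5
      have h6 : 1 ≤ x ∨ x ≤ -2 := by omega
      rcases h6 with h6 | h6 <;> nlinarith
  · nlinarith

lemma int_eq {X Y : ℚ} {D : ℤ} (h : X ^ 3 + Y ^ 3 = D) :
    X.num ^ 3 * (Y.den : ℤ) ^ 3 + Y.num ^ 3 * (X.den : ℤ) ^ 3 =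
      D * (X.den : ℤ) ^ 3 * (Y.den : ℤ) ^ 3 := by
  have hx : (X.den : ℚ) ≠ 0 := by exact_mod_cast X.den_nz
  have hy : (Y.den : ℚ) ≠ 0 := by exact_mod_cast Y.den_nz
  have e1 : X * X.den = X.num := Rat.mul_den_eq_num X
  have e2 : Y * Y.den = Y.num := Rat.mul_den_eq_num Y
  have e3 : (X.num : ℚ) ^ 3 * (Y.den : ℚ) ^ 3 + (Y.num : ℚ) ^ 3 * (X.den : ℚ) ^ 3 =
      D * (X.den : ℚ) ^ 3 * (Y.den : ℚ) ^ 3 := by
    rw [← e1, ← e2, ← h]
    ring
  exact_mod_cast e3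

lemma cop (X : ℚ) : IsCoprime (X.den : ℤ) X.num := by
  have h1 := X.reduced
  exact Int.isCoprime_iff_gcd_eq_one.2 (by
    rw [Int.gcd_comm]; exact h1 : Int.gcd (X.den : ℤ) X.num = 1)

lemma den_dvd {X Y : ℚ} {D : ℤ} (h : X ^ 3 + Y ^ 3 = D) : X.den ∣ Y.den := by
  have h1 := int_eq h
  have h2 : (X.den : ℤ) ^ 3 ∣ X.num ^ 3 * (Y.den : ℤ) ^ 3 :=
    ⟨D * (Y.den : ℤ) ^ 3 - Y.num ^ 3, by linear_combination h1⟩
  have h3 : (X.den : ℤ) ^ 3 ∣ (Y.den : ℤ) ^ 3 := ((cop X).pow).dvd_of_dvd_mul_left h2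
  have h4 : (X.den : ℤ) ∣ (Y.den : ℤ) := (Int.pow_dvd_pow_iff (by norm_num)).1 h3
  exact_mod_cast h4

lemma den_eq {X Y : ℚ} {D : ℤ} (h : X ^ 3 + Y ^ 3 = D) : X.den = Y.den :=
  Nat.dvd_antisymm (den_dvd h) (den_dvd (by rw [add_comm]; exact h))

lemma cube_one {D : ℕ} (hD : CF D) {n : ℤ} {m : ℤ} (h : m * n ^ 3 = D) (hD0 : D ≠ 0) :
    n.natAbs = 1 := by
  by_contra hn
  obtain ⟨p, hp, hpn⟩ := Nat.exists_prime_and_dvd hn
  apply hD p hp
  have h1 : (p : ℤ) ∣ n := Int.natCast_dvd.2 hpn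
  have h2 : (p : ℤ) ^ 3 ∣ (D : ℤ) := by
    rw [← h]
    exact (pow_dvd_pow_of_dvd h1 3).mul_left m
  exact_mod_cast h2

/-- **the tangent construction** -/
theorem step {D : ℕ} (hD : CF D) (hD1 : 1 < D) {X Y : ℚ} (h : X ^ 3 + Y ^ 3 = D) (hne : X ≠ Y) :
    ∃ X' Y' : ℚ, X' ^ 3 + Y' ^ 3 = D ∧ X.den < X'.den := by
  have hZ : X ^ 3 + Y ^ 3 = ((D : ℤ) : ℚ) := by rw [h, Int.cast_natCast]
  have hden := den_eq hZ
  obtain ⟨z, hz⟩ : ∃ z : ℤ, z = X.den := ⟨_, rfl⟩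
  obtain ⟨x, hx⟩ : ∃ x : ℤ, x = X.num := ⟨_, rfl⟩
  obtain ⟨y, hy⟩ : ∃ y : ℤ, y = Y.num := ⟨_, rfl⟩
  have hz0 : 0 < z := by rw [hz]; exact_mod_cast X.den_pos
  have hzq : (z : ℚ) ≠ 0 := by exact_mod_cast hz0.ne'
  have eX : X * z = x := by rw [hz, hx, Int.cast_natCast]; exact Rat.mul_den_eq_num X
  have eY : Y * z = y := by rw [hz, hy, hden, Int.cast_natCast]; exact Rat.mul_den_eq_num Y
  have eq1 : x ^ 3 + y ^ 3 = D * z ^ 3 := by
    have : (x : ℚ) ^ 3 + (y : ℚ) ^ 3 = (D : ℚ) * (z : ℚ) ^ 3 := by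
      rw [← eX, ← eY, ← h]
      ring
    exact_mod_cast this
  have czx : IsCoprime z x := by rw [hz, hx]; exact cop X
  have czy : IsCoprime z y := by rw [hz, hy, hden]; exact cop Y
  have hD0 : (D : ℤ) ≠ 0 := by
    have : D ≠ 0 := by omega
    exact_mod_cast this
  have cxy : IsCoprime x y := by
    rw [Int.isCoprime_iff_gcd_eq_one]
    by_contra hg
    obtain ⟨p, hp, hpg⟩ := Nat.exists_prime_and_dvd hg
    have h1 : (p : ℤ) ∣ x := (Int.natCast_dvd_natCast.2 hpg).trans (Int.gcd_dvd_left x y)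
    have h2 : (p : ℤ) ∣ y := (Int.natCast_dvd_natCast.2 hpg).trans (Int.gcd_dvd_right x y)
    have h3 : (p : ℤ) ^ 3 ∣ (D : ℤ) * z ^ 3 := by
      rw [← eq1]
      exact dvd_add (pow_dvd_pow_of_dvd h1 3) (pow_dvd_pow_of_dvd h2 3)
    have h4 : IsCoprime ((p : ℤ) ^ 3) (z ^ 3) := (IsCoprime.of_isCoprime_of_dvd_right czx h1).symm.pow
    have h5 : (p : ℤ) ^ 3 ∣ (D : ℤ) := h4.dvd_of_dvd_mul_right h3
    exact hD p hp (by exact_mod_cast h5)
  have hx0 : x ≠ 0 := by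
    rintro rfl
    have h1 : IsUnit z := by
      have := czx
      rwa [isCoprime_zero_right] at this
    have h2 : z = 1 := by
      rcases Int.isUnit_iff.1 h1 with h' | h' <;> omega
    rw [h2] at eq1
    have h3 : (1 : ℤ) * y ^ 3 = D := by linear_combination eq1
    have h4 := cube_one hD h3 (by omega)
    rcases Int.natAbs_eq y with h' | h' <;> rw [h4] at h' <;> rw [h'] at h3 <;> norm_num at h3 <;>
      omega
  have hy0 : y ≠ 0 := by
    rintro rfl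
    have h1 : IsUnit z := by
      have := czy
      rwa [isCoprime_zero_right] at this
    have h2 : z = 1 := by
      rcases Int.isUnit_iff.1 h1 with h' | h' <;> omega
    rw [h2] at eq1
    have h3 : (1 : ℤ) * x ^ 3 = D := by linear_combination eq1
    have h4 := cube_one hD h3 (by omega)
    rcases Int.natAbs_eq x with h' | h' <;> rw [h4] at h' <;> rw [h'] at h3 <;> norm_num at h3 <;>
      omega
  have hxy : x ≠ y := by
    intro h'
    apply hne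
    have : X * z = Y * z := by rw [eX, eY, h']
    exact mul_right_cancel₀ hzq this
  have hxy' : x ≠ -y := by
    intro h'
    rw [h'] at eq1
    have h1 : (D : ℤ) * z ^ 3 = 0 := by rw [← eq1]; ring
    exact mul_ne_zero hD0 (pow_ne_zero 3 hz0.ne') h1
  have hbig := cube_sub hx0 hy0 hxy hxy'
  have hd0 : x ^ 3 - y ^ 3 ≠ 0 := by
    intro h'
    rw [h', abs_zero] at hbig
    norm_num at hbig
  have hdq : X ^ 3 - Y ^ 3 ≠ 0 := by
    intro h'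
    apply hd0
    have : (x : ℚ) ^ 3 - (y : ℚ) ^ 3 = 0 := by
      rw [← eX, ← eY]
      have e : (X * z) ^ 3 - (Y * z) ^ 3 = (X ^ 3 - Y ^ 3) * (z : ℚ) ^ 3 := by ring
      rw [e, h', zero_mul]
    exact_mod_cast this
  obtain ⟨X', hX'⟩ : ∃ X' : ℚ, X' * (X ^ 3 - Y ^ 3) = X * (X ^ 3 + 2 * Y ^ 3) :=
    ⟨X * (X ^ 3 + 2 * Y ^ 3) / (X ^ 3 - Y ^ 3), div_mul_cancel₀ _ hdq⟩
  obtain ⟨Y', hY'⟩ : ∃ Y' : ℚ, Y' * (X ^ 3 - Y ^ 3) = -(Y * (2 * X ^ 3 + Y ^ 3)) :=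
    ⟨-(Y * (2 * X ^ 3 + Y ^ 3)) / (X ^ 3 - Y ^ 3), div_mul_cancel₀ _ hdq⟩
  have hsum : X' ^ 3 + Y' ^ 3 = D := by
    have h1 : (X' ^ 3 + Y' ^ 3) * (X ^ 3 - Y ^ 3) ^ 3 = (D : ℚ) * (X ^ 3 - Y ^ 3) ^ 3 := by
      have e : (X' ^ 3 + Y' ^ 3) * (X ^ 3 - Y ^ 3) ^ 3 =
        (X' * (X ^ 3 - Y ^ 3)) ^ 3 + (Y' * (X ^ 3 - Y ^ 3)) ^ 3 := by ring
      rw [e, hX', hY', ← h]
      ring
    exact mul_right_cancel₀ (pow_ne_zero 3 hdq) h1
  refine ⟨X', Y', hsum, ?_⟩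
  have hden' := den_eq (D := (D : ℤ)) (by rw [hsum, Int.cast_natCast] : X' ^ 3 + Y' ^ 3 = ((D : ℤ) : ℚ))
  obtain ⟨w, hw⟩ : ∃ w : ℤ, w = X'.den := ⟨_, rfl⟩
  have hw0 : 0 < w := by rw [hw]; exact_mod_cast X'.den_pos
  have eX' : X' * w = X'.num := by rw [hw, Int.cast_natCast]; exact Rat.mul_den_eq_num X'
  have eY' : Y' * w = Y'.num := by rw [hw, hden', Int.cast_natCast]; exact Rat.mul_den_eq_num Y'
  obtain ⟨Z, hZd⟩ : ∃ Z : ℤ, Z = z * (x ^ 3 - y ^ 3) := ⟨_, rfl⟩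
  have d1 : Z ∣ x * (x ^ 3 + 2 * y ^ 3) * w := by
    refine ⟨X'.num, ?_⟩
    have : (x : ℚ) * ((x : ℚ) ^ 3 + 2 * (y : ℚ) ^ 3) * w = (Z : ℚ) * X'.num := by
      rw [hZd, ← eX']
      push_cast
      rw [← eX, ← eY]
      linear_combination -(z : ℚ) ^ 4 * w * hX'
    exact_mod_cast this
  have d2 : Z ∣ y * (2 * x ^ 3 + y ^ 3) * w := by
    refine ⟨-Y'.num, ?_⟩
    have : (y : ℚ) * (2 * (x : ℚ) ^ 3 + (y : ℚ) ^ 3) * w = (Z : ℚ) * (-Y'.num) := by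
      rw [hZd, ← eY']
      push_cast
      rw [← eX, ← eY]
      linear_combination (z : ℚ) ^ 4 * w * hY'
    exact_mod_cast this
  have d3 : Z ∣ (x ^ 3 + 2 * y ^ 3) * w := by
    have c : IsCoprime x (y * (2 * x ^ 3 + y ^ 3)) := by
      refine IsCoprime.mul_right cxy ?_
      have h1 : IsCoprime x (y ^ 3) := cxy.pow_right
      have h2 : 2 * x ^ 3 + y ^ 3 = y ^ 3 + x * (2 * x ^ 2) := by ring
      rw [h2]
      exact IsCoprime.add_mul_left_right h1 _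
    obtain ⟨r, s, hrs⟩ := c
    have e : (x ^ 3 + 2 * y ^ 3) * w = r * (x * (x ^ 3 + 2 * y ^ 3) * w) +
        s * (x ^ 3 + 2 * y ^ 3) * (y * (2 * x ^ 3 + y ^ 3) * w) := by
      linear_combination -(x ^ 3 + 2 * y ^ 3) * w * hrs
    rw [e]
    exact dvd_add (d1.mul_left _) (d2.mul_left _)
  have d4 : Z ∣ (2 * x ^ 3 + y ^ 3) * w := by
    have c : IsCoprime y (x ^ 3 + 2 * y ^ 3) := by
      have h1 : IsCoprime y (x ^ 3) := cxy.symm.pow_right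
      have h2 : x ^ 3 + 2 * y ^ 3 = x ^ 3 + y * (2 * y ^ 2) := by ring
      rw [h2]
      exact IsCoprime.add_mul_left_right h1 _
    obtain ⟨r, s, hrs⟩ := c
    have e : (2 * x ^ 3 + y ^ 3) * w = r * (y * (2 * x ^ 3 + y ^ 3) * w) +
        s * (2 * x ^ 3 + y ^ 3) * ((x ^ 3 + 2 * y ^ 3) * w) := by
      linear_combination -(2 * x ^ 3 + y ^ 3) * w * hrs
    rw [e]
    exact dvd_add (d2.mul_left _) (d3.mul_left _)
  have d5 : Z ∣ 3 * w := by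
    have c : IsCoprime (x ^ 3) (y ^ 3) := cxy.pow
    obtain ⟨r, s, hrs⟩ := c
    have e : 3 * w = (2 * s - r) * ((x ^ 3 + 2 * y ^ 3) * w) +
        (2 * r - s) * ((2 * x ^ 3 + y ^ 3) * w) := by
      linear_combination -3 * w * hrs
    rw [e]
    exact dvd_add (d3.mul_left _) (d4.mul_left _)
  have h6 : |Z| ≤ 3 * w := by
    have := Int.le_of_dvd (by positivity) ((abs_dvd _ _).2 d5)
    exact this
  rw [hZd, abs_mul, abs_of_pos hz0] at h6
  have h7 : z < w := by nlinarith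
  rw [hz, hw] at h7
  exact_mod_cast h7

/-- **finitely many solutions** -/
theorem all_eq {D : ℕ} (hD : CF D) (hD1 : 1 < D)
    (hfin : {p : ℚ × ℚ | p.1 ^ 3 + p.2 ^ 3 = D}.Finite) {X Y : ℚ} (h : X ^ 3 + Y ^ 3 = D) :
    D = 2 ∧ X = 1 ∧ Y = 1 := by
  have hint : ∀ X : ℚ, 2 * X ^ 3 = D → X.den = 1 ∧ D = 2 ∧ X = 1 := by
    intro X hX
    have e1 : X * X.den = X.num := Rat.mul_den_eq_num X
    have e2 : 2 * X.num ^ 3 = (D : ℤ) * (X.den : ℤ) ^ 3 := by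
      have : 2 * (X.num : ℚ) ^ 3 = (D : ℚ) * (X.den : ℚ) ^ 3 := by
        rw [← e1, ← hX]
        ring
      exact_mod_cast this
    have e3 : (X.den : ℤ) ^ 3 ∣ 2 := by
      have h1 : (X.den : ℤ) ^ 3 ∣ X.num ^ 3 * 2 := ⟨D, by linear_combination e2⟩
      exact ((cop X).pow).dvd_of_dvd_mul_left h1
    have e4 : X.den = 1 := by
      by_contra hcon
      have h1 : 2 ≤ X.den := by
        have := X.den_pos
        omega
      have h2 := Int.le_of_dvd (by norm_num) e3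
      have h3 : (2 : ℤ) ≤ X.den := by exact_mod_cast h1
      nlinarith [pow_le_pow_left₀ (by norm_num : (0 : ℤ) ≤ 2) h3 3]
    rw [e4] at e2
    have e5 : (2 : ℤ) * X.num ^ 3 = D := by linear_combination e2
    have e6 := cube_one hD e5 (by omega)
    have e7 : X.num = 1 := by
      rcases Int.natAbs_eq X.num with h' | h' <;> rw [e6] at h'
      · exact h'
      · rw [h'] at e5
        norm_num at e5
        omega
    refine ⟨e4, ?_, ?_⟩
    · rw [e7] at e5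
      norm_num at e5
      omega
    · rw [e4, e7] at e1
      simpa using e1
  have key : ∀ X Y : ℚ, X ^ 3 + Y ^ 3 = D → X = Y := by
    by_contra hcon
    push Not at hcon
    obtain ⟨X0, Y0, h0, hne0⟩ := hcon
    obtain ⟨p, hp, hmax⟩ := Set.exists_max_image {p : ℚ × ℚ | p.1 ^ 3 + p.2 ^ 3 = D ∧ p.1 ≠ p.2}
      (fun p => p.1.den) (hfin.subset fun p hp => hp.1) ⟨(X0, Y0), h0, hne0⟩
    obtain ⟨X', Y', h1, h2⟩ := step hD hD1 hp.1 hp.2
    by_cases h3 : X' = Y'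
    · rw [← h3] at h1
      obtain ⟨h4, -, -⟩ := hint X' (by rw [← h1]; ring)
      have := p.1.den_pos
      omega
    · have := hmax (X', Y') ⟨h1, h3⟩
      simp only at this
      omega
  have hXY := key X Y h
  rw [← hXY] at h ⊢
  obtain ⟨-, h4, h5⟩ := hint X (by rw [← h]; ring)
  exact ⟨h4, h5, h5⟩

end Pool.Agent.Q323.CA
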